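import Pool.Agent.Y879.PR.Unif
import Pool.Agent.Y879.GL.Prog2
import Pool.Agent.Y879.GL.Pattern

set_option autoImplicit false

/-!
The ACTUAL primes `p` of the window of Rivera's conjecture for which `N - p` is almost prime, for EVERY
even `N`: their number, and the Poisson law of the almost prime pairs `(n, N - n)` that follow them.
-/

namespace Pool.Agent.Results.MP_b454d1_nt.RiveraPrimes

open Finset Filter
open Pool.Agent.Y879.AP Pool.Agent.Y879.GL Pool.Agent.Y879.PR Pool.Agent.W123.RP Pool.Agent.H373R2.T7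
open Pool.Agent.TH464.PO Pool.Agent.TH464.PW Pool.Agent.W123.RU.Poly

/-- neither `n` nor `N - n` has a prime factor `p ≤ N ^ (1 / r)` -/
def Good (N r n : ℕ) : Prop :=
  ∀ p : ℕ, p.Prime → (p : ℝ) ≤ (N : ℝ) ^ (1 / (r : ℝ)) → ¬ (p : ℤ) ∣ (n : ℤ) ∧ ¬ (p : ℤ) ∣ (N : ℤ) - n

/-- the number of the residue classes `0` and `N` modulo `p` -/
def nu (N p : ℕ) : ℕ := if p ∣ N then 1 else 2

/-- the density of the good numbers: the product of `1 - nu(p) / p` over the primes `p ≤ N ^ (1 / r)` -/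
noncomputable def V (N r : ℕ) : ℝ :=
  ∏ p ∈ (Icc 1 ⌊(N : ℝ) ^ (1 / (r : ℝ))⌋₊).filter Nat.Prime, (1 - (nu N p : ℝ) / p)

/-- the density of the good numbers among the primes: the product of
`(1 - nu(p) / p) / (1 - 1 / p)` over the primes `p ≤ N ^ (1 / r)` -/
noncomputable def W (N r : ℕ) : ℝ :=
  ∏ p ∈ (Icc 1 ⌊(N : ℝ) ^ (1 / (r : ℝ))⌋₊).filter Nat.Prime, (1 - (nu N p : ℝ) / p) / (1 - 1 / (p : ℝ))

open Classical in
/-- the good PRIMES in the window `I` -/
noncomputable def Pr (N r : ℕ) (I : Finset ℕ) : Finset ℕ := I.filter (fun p => p.Prime ∧ Good N r p)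

open Classical in
/-- the number of the good numbers in `(n, n + T]` -/
noncomputable def Next (N r T n : ℕ) : ℕ := ((Ioc n (n + T)).filter (Good N r)).card

/-- the window of Rivera's conjecture: `√N < p < 4 √N` -/
def Win (N : ℕ) : Finset ℕ := (range N).filter (fun p => N < p ^ 2 ∧ p ^ 2 < 16 * N)

/-- the Poisson weight of the set `B` -/
noncomputable def Poi (x : ℝ) (B : Finset ℕ) : ℝ := ∑ j ∈ B, Real.exp (-x) * x ^ j / j.factorial

/-- the number of the good numbers in `(p, p + T]` has the Poisson law of mean `T V` at the good primes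
`p` in `I`, up to `ε`, whenever `T V ≤ x₀` -/
def Law (N r : ℕ) (I : Finset ℕ) (x₀ ε : ℝ) : Prop :=
  ∀ T : ℕ, T * V N r ≤ x₀ → ∀ B : Finset ℕ,
    |(((Pr N r I).filter (fun p => Next N r T p ∈ B)).card : ℝ) - (Pr N r I).card * Poi (T * V N r) B| ≤
      ε * (Pr N r I).card

lemma he : (-1 : ℤ) * (-1) = 1 := by norm_num

lemma good_iff (N r n : ℕ) : Good N r n ↔ Sf (Q (pf (-1) (N : ℤ) 1 0)) ⌊(N : ℝ) ^ (1 / (r : ℝ))⌋₊ n := by
  have key : ∀ p : ℕ, p.Prime → (¬ Q (pf (-1) (N : ℤ) 1 0) p n ↔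
      ¬ (p : ℤ) ∣ (n : ℤ) ∧ ¬ (p : ℤ) ∣ (N : ℤ) - n) := by
    intro p hp
    have hpi : Prime (p : ℤ) := Nat.prime_iff_prime_int.1 hp
    rw [pf_Q _ _ 1 0 p n hp]
    unfold Q2
    rw [hpi.dvd_mul, not_or]
    push_cast
    rw [show (-1 : ℤ) * (1 * n + 0) + N = (N : ℤ) - n by ring, show (1 : ℤ) * n + 0 = n by ring]
  unfold Good Sf
  constructor
  · intro h p hp
    obtain ⟨hp1, hp2⟩ := mem_pz.1 hp
    exact (key p hp2).2 (h p hp2 ((Nat.le_floor_iff (by positivity)).1 hp1))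
  · intro h p hp hpr
    exact (key p hp).1 (h p (mem_pz.2 ⟨Nat.le_floor hpr, hp⟩))

lemma nu_eq (N p : ℕ) (hp : p.Prime) : nuB (Qn (Q2 (-1) (N : ℤ)) 1) p = nu N p := by
  have h : ¬ p ∣ 1 := fun h => hp.one_lt.ne' (Nat.dvd_one.1 h)
  rw [nuB_Qn_not _ _ _ h, nuB_Q2 _ _ he p hp]
  unfold nu nu2
  by_cases h2 : p ∣ N
  · rw [if_pos h2, if_pos (Int.natCast_dvd_natCast.2 h2)]
  · rw [if_neg h2, if_neg (fun h3 => h2 (Int.natCast_dvd_natCast.1 h3))]

lemma cop (N : ℕ) : IsCoprime ((1 : ℕ) : ℤ) ((-1) * ((0 : ℕ) : ℤ) + (N : ℤ)) := by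
  push_cast
  exact isCoprime_one_left

lemma V_eq (N r : ℕ) : V N r = Vq (Q (pf (-1) (N : ℤ) 1 0)) ⌊(N : ℝ) ^ (1 / (r : ℝ))⌋₊ := by
  rw [pf_Vq _ _ he 1 0 _ (by norm_num) (cop N)]
  unfold V Vq
  apply Finset.prod_congr rfl
  intro p hp
  rw [nu_eq N p (mem_pz.1 hp).2]

lemma W_eq (N r : ℕ) : W N r = V N r / Vz ⌊(N : ℝ) ^ (1 / (r : ℝ))⌋₊ := by
  unfold W V Vz
  rw [Finset.prod_div_distrib]
  rfl

lemma pr_eq (N r u Y : ℕ) : Pr N r (Ioc u (u + Y)) =
    Om 1 0 (Q (pf (-1) (N : ℤ) 1 0)) ⌊(N : ℝ) ^ (1 / (r : ℝ))⌋₊ u Y := by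
  unfold Pr Om
  ext n
  simp only [Finset.mem_filter, one_mul, add_zero, good_iff]

lemma next_eq (N r T n : ℕ) : Next N r T n =
    Wc (Sf (Q (pf (-1) (N : ℤ) 1 0)) ⌊(N : ℝ) ^ (1 / (r : ℝ))⌋₊) n T := by
  have h : Good N r = Sf (Q (pf (-1) (N : ℤ) 1 0)) ⌊(N : ℝ) ^ (1 / (r : ℝ))⌋₊ :=
    funext fun m => propext (good_iff N r m)
  unfold Next Wc
  rw [h]

/-- the general law -/
theorem law (θ δ x₀ ε : ℝ) (hθ : 0 < θ) (hδ : 0 < δ) (hδ1 : δ ≤ 1) (hε : 0 < ε) (hε1 : ε ≤ 1) :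
    ∃ r₀ : ℕ, 2 ≤ r₀ ∧ ∀ r : ℕ, r₀ ≤ r → ∀ᶠ N : ℕ in atTop, Even N →
      ∀ X u Y : ℕ, (N : ℝ) ^ θ ≤ X → δ * X ≤ u → δ * X ≤ Y → u + Y ≤ X →
        |((Pr N r (Ioc u (u + Y))).card : ℝ) * Real.log X - Y * W N r| ≤ ε * (Y * W N r) ∧
        Law N r (Ioc u (u + Y)) x₀ ε := by
  obtain ⟨r0, hr0, h⟩ := prime_polys 1 2 1 squarefree_one 2 (1 / 2) θ δ (by norm_num) (by norm_num) hθ hδ
    hδ1 x₀ ε hε hε1
  refine ⟨r0, hr0, ?_⟩
  intro r hr
  have hr2 : 2 ≤ r := hr0.trans hr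
  obtain ⟨M, hM, hV⟩ := pf_Vup 1 one_pos r hr2
  filter_upwards [h r hr M, hV, eventually_ge_atTop 4] with N hN hVN hN4 hev X u Y hX hu hY huY
  have hN4r : (4 : ℝ) ≤ N := by exact_mod_cast hN4
  have hN0 : (0 : ℝ) < N := by linarith
  have hN1 : (1 : ℝ) < N := by linarith
  have hevZ : Even (N : ℤ) := by exact_mod_cast hev
  have hus := pf_us (-1) (N : ℤ) he hevZ 1 0 le_rfl (by norm_num) (cop N) ((N : ℝ) ^ (2 : ℝ))
    (by
      push_cast
      exact Real.one_le_rpow hN1.le (by norm_num))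
    (by
      push_cast
      rw [abs_of_pos hN0, zero_add]
      calc (N : ℝ) = (N : ℝ) ^ (1 : ℝ) := (Real.rpow_one _).symm
        _ ≤ (N : ℝ) ^ (2 : ℝ) := Real.rpow_le_rpow_of_exponent_le hN1.le (by norm_num))
  have hno := pf_noas (-1) (N : ℤ) he 1 0 le_rfl ∅ ((N : ℝ) ^ ((1 : ℝ) / 2)) (by
    intro t ht htN _ h7
    have h5 : (t : ℝ) < N := by
      refine htN.trans_lt ?_
      calc (N : ℝ) ^ ((1 : ℝ) / 2) < (N : ℝ) ^ (1 : ℝ) :=
            Real.rpow_lt_rpow_of_exponent_lt hN1 (by norm_num)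
        _ = N := Real.rpow_one _
    have h6 : t < N := by exact_mod_cast h5
    have h8 : (t : ℤ) < N := by exact_mod_cast h6
    have h9 : (0 : ℤ) ≤ t := by positivity
    push_cast at h7
    nlinarith)
  have hus2 : US 2 1 ((N : ℝ) ^ (2 : ℝ)) ((N : ℝ) ^ ((1 : ℝ) / 2)) (pf (-1) (N : ℤ) 1 0) :=
    { irr := hus.irr, deg := hus.deg, degD := hus.degD, hgt := hus.hgt, adm := hus.adm
      tr := fun i j t ht htU => hno i j t ht htU (by simp) }
  have h1 := hN (pf (-1) (N : ℤ) 1 0) 0 hus2 (by norm_num)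
    (fun p n hp hp1 => absurd (Nat.dvd_one.1 hp1) hp.one_lt.ne')
    ⟨0, fun n => by
      unfold pf
      rw [lf_eval]
      simp [ca, cb]⟩
    (by
      rw [pf_Vq _ _ he 1 0 _ (by norm_num) (cop N)]
      exact hVN (-1) (N : ℤ) 1 he hevZ (by exact_mod_cast (by omega : N ≠ 0))
        (by
          rw [Real.rpow_one]
          push_cast
          rw [abs_of_pos hN0]) le_rfl
        (by
          rw [Real.rpow_one]
          push_cast
          exact hN1.le))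
    X hX (Nat.zero_le _) u Y hu hY huY
  rw [← pr_eq, ← V_eq, ← W_eq] at h1
  refine ⟨h1.1, ?_⟩
  intro T hT B
  have h2 := h1.2 T hT B
  unfold Poi
  have h3 : (Pr N r (Ioc u (u + Y))).filter (fun p => Next N r T p ∈ B) =
      (Pr N r (Ioc u (u + Y))).filter
        (fun n => Wc (Sf (Q (pf (-1) (N : ℤ) 1 0)) ⌊(N : ℝ) ^ (1 / (r : ℝ))⌋₊) n T ∈ B) := by
    apply Finset.filter_congr
    intro n _
    rw [next_eq]
  rw [h3]
  exact h2

lemma W_nonneg (N r : ℕ) : 0 ≤ W N r := by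
  rw [W_eq, V_eq]
  exact div_nonneg (Vq_nonneg _ _) (Pool.Agent.Y879.PR.Vz_pos _).le

lemma win_eq (N : ℕ) (hN : 16 ≤ N) :
    Win N = Ioc (Nat.sqrt N) (Nat.sqrt N + (Nat.sqrt (16 * N - 1) - Nat.sqrt N)) := by
  have h0 : Nat.sqrt N ≤ Nat.sqrt (16 * N - 1) := Nat.sqrt_le_sqrt (by omega)
  rw [Nat.add_sub_cancel' h0]
  unfold Win
  ext p
  rw [Finset.mem_filter, Finset.mem_range, Finset.mem_Ioc, Nat.sqrt_lt', Nat.le_sqrt']
  constructor
  · rintro ⟨_, h2, h3⟩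
    exact ⟨h2, by omega⟩
  · rintro ⟨h2, h3⟩
    have h4 : p ^ 2 < 16 * N := by omega
    refine ⟨?_, h2, h4⟩
    by_contra hcon
    rw [not_lt] at hcon
    have h5 : N ^ 2 ≤ p ^ 2 := Nat.pow_le_pow_left hcon 2
    nlinarith

/-- the analytic step for the window -/
lemma window_calc (ε R L lX Y W c : ℝ) (hε : 0 < ε) (hε1 : ε ≤ 1) (hW : 0 ≤ W) (hc : 0 ≤ c)
    (hR : 8 / ε ≤ R) (hL : 128 * Real.log 4 / ε ≤ L) (hl1 : L / 2 ≤ lX) (hl2 : lX ≤ Real.log 4 + L / 2)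
    (hY1 : 3 * R - 1 ≤ Y) (hY2 : Y ≤ 3 * R + 1)
    (h : |c * lX - Y * W| ≤ ε / 12 * (Y * W)) : |c * L - 6 * R * W| ≤ ε * (R * W) := by
  obtain ⟨h1, h2⟩ := abs_le.1 h
  have hl4 : 0 < Real.log 4 := Real.log_pos (by norm_num)
  have hR8 : 8 ≤ ε * R := by
    rw [div_le_iff₀ hε] at hR
    linarith
  have hR0 : 8 ≤ R := by nlinarith
  have hL1 : 128 * Real.log 4 ≤ ε * L := by
    rw [div_le_iff₀ hε] at hL
    linarith
  have hL0 : 0 < L := by
    by_contra hcon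
    rw [not_lt] at hcon
    nlinarith
  have hYW : Y * W ≤ (3 * R + 1) * W := by nlinarith
  have hYW2 : (3 * R - 1) * W ≤ Y * W := by nlinarith
  have hRW : 0 ≤ R * W := by positivity
  have hW8 : 8 * W ≤ ε * (R * W) := by nlinarith
  have hup : c * lX ≤ (1 + ε / 12) * ((3 * R + 1) * W) := by nlinarith
  have hcL : c * (L / 2) ≤ (1 + ε / 12) * ((3 * R + 1) * W) :=
    (mul_le_mul_of_nonneg_left hl1 hc).trans hup
  have hεW : ε * W ≤ W := by nlinarith
  -- the loss from the logarithm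
  have hc4 : c * Real.log 4 ≤ ε * (R * W) / 8 := by
    have h3 : c * Real.log 4 * 128 ≤ c * (ε * L) := by nlinarith
    have h4 : c * (ε * L) ≤ 2 * ε * ((1 + ε / 12) * ((3 * R + 1) * W)) := by nlinarith
    have h5 : (1 + ε / 12) * ((3 * R + 1) * W) ≤ 2 * (4 * (R * W)) := by
      have h6 : (3 * R + 1) * W ≤ 4 * (R * W) := by nlinarith
      have h7 : 0 ≤ (3 * R + 1) * W := by positivity
      nlinarith
    have h8 : 2 * ε * ((1 + ε / 12) * ((3 * R + 1) * W)) ≤ 2 * ε * (2 * (4 * (R * W))) :=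
      mul_le_mul_of_nonneg_left h5 (by positivity)
    nlinarith
  rw [abs_le]
  constructor
  · have h3 : c * lX ≤ c * Real.log 4 + c * (L / 2) := by nlinarith
    have h4 : (1 - ε / 12) * ((3 * R - 1) * W) ≤ c * lX := by nlinarith
    nlinarith
  · nlinarith

/-- **The primes of Rivera's window, for every even number.** For all `θ > 0`, `0 < δ ≤ 1`, `0 < ε ≤ 1`
and `x₀` there is `r₀` such that for every `r ≥ r₀` and EVERY large even `N`:

(1) if `0 < n < N` is good then `n` and `N - n` have at most `r` prime factors;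

(2) if `n` and `N - n` are primes larger than `N ^ (1 / r)` then `n` is good;

(3) the number of the good PRIMES `p` with `√N < p < 4 √N` is `(6 + η) √N W / log N`, `|η| ≤ ε`, and at
these primes the number of the good numbers in `(p, p + T]` has the Poisson law of mean `T V`, up to `ε`,
for all `T` with `T V ≤ x₀`;

(4) the same for all windows: if `X ≥ N ^ θ`, `u, Y ≥ δ X` and `u + Y ≤ X`, the number of the good primes
in `(u, u + Y]` is `(1 + η) Y W / log X`, `|η| ≤ ε`, and the same Poisson law holds at these primes. -/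
theorem result (θ δ x₀ ε : ℝ) (hθ : 0 < θ) (hδ : 0 < δ) (hδ1 : δ ≤ 1) (hε : 0 < ε) (hε1 : ε ≤ 1) :
    ∃ r₀ : ℕ, ∀ r : ℕ, r₀ ≤ r → ∃ N₀ : ℕ, ∀ N : ℕ, N₀ ≤ N → Even N →
      (∀ n : ℕ, 0 < n → n < N → Good N r n →
        n.primeFactorsList.length ≤ r ∧ (N - n).primeFactorsList.length ≤ r) ∧
      (∀ n : ℕ, n.Prime → (N - n).Prime → (N : ℝ) ^ (1 / (r : ℝ)) < (n : ℝ) →
        (N : ℝ) ^ (1 / (r : ℝ)) < ((N - n : ℕ) : ℝ) → Good N r n) ∧
      (0 < W N r ∧ |((Pr N r (Win N)).card : ℝ) * Real.log N - 6 * Real.sqrt N * W N r| ≤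
          ε * (Real.sqrt N * W N r) ∧ Law N r (Win N) x₀ ε) ∧
      ∀ X u Y : ℕ, (N : ℝ) ^ θ ≤ X → δ * X ≤ u → δ * X ≤ Y → u + Y ≤ X →
        |((Pr N r (Ioc u (u + Y))).card : ℝ) * Real.log X - Y * W N r| ≤ ε * (Y * W N r) ∧
        Law N r (Ioc u (u + Y)) x₀ ε := by
  obtain ⟨r1, hr12, hlaw⟩ := law θ δ x₀ ε hθ hδ hδ1 hε hε1
  obtain ⟨r2, hr22, hwin⟩ := law (1 / 2) (1 / 8) x₀ (ε / 12) (by norm_num) (by norm_num) (by norm_num)
    (by positivity) (by linarith)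
  refine ⟨max r1 r2, ?_⟩
  intro r hr
  have hr1' : r1 ≤ r := (le_max_left _ _).trans hr
  have hr2' : r2 ≤ r := (le_max_right _ _).trans hr
  have hr2 : 2 ≤ r := hr22.trans hr2'
  have hrr : (2 : ℝ) ≤ r := by exact_mod_cast hr2
  have hlog : ∀ᶠ N : ℕ in atTop, 128 * Real.log 4 / ε ≤ Real.log N :=
    (Real.tendsto_log_atTop.comp tendsto_natCast_atTop_atTop).eventually_ge_atTop _
  obtain ⟨N0, hN0⟩ := eventually_atTop.1 ((hlaw r hr1').and ((hwin r hr2').and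
    ((Pool.Agent.Y879.GL.level_ok r hr2).and hlog)))
  refine ⟨max N0 (max 100 ⌈(8 / ε) ^ 2⌉₊), ?_⟩
  intro N hN hev
  obtain ⟨h1, h2, h3, h4⟩ := hN0 N ((le_max_left _ _).trans hN)
  have hN100 : 100 ≤ N := ((le_max_left _ _).trans (le_max_right _ _)).trans hN
  have hNε : (8 / ε) ^ 2 ≤ N := by
    have h5 : ⌈(8 / ε) ^ 2⌉₊ ≤ N := ((le_max_right _ _).trans (le_max_right _ _)).trans hN
    exact (Nat.le_ceil _).trans (by exact_mod_cast h5)
  have hNr : (100 : ℝ) ≤ N := by exact_mod_cast hN100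
  have hMpos : (0 : ℝ) < N := by linarith
  have hz3 : (3 : ℝ) ≤ (N : ℝ) ^ (1 / (r : ℝ)) := by
    have h4 : ((3 : ℕ) : ℝ) ≤ (N : ℝ) ^ (1 / (r : ℝ)) :=
      (Nat.le_floor_iff (by positivity)).1 h3.1
    exact_mod_cast h4
  have hpow : ((N : ℝ) ^ (1 / (r : ℝ))) ^ r = N := by
    rw [← Real.rpow_natCast, ← Real.rpow_mul hMpos.le, one_div, inv_mul_cancel₀ (by linarith),
      Real.rpow_one]
  refine ⟨?_, ?_, ?_, ?_⟩
  · intro n hn hnN hg
    constructor
    · refine few_of_rough ((N : ℝ) ^ (1 / (r : ℝ))) (by linarith) n r (by omega) ?_ ?_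
      · rw [hpow]
        exact_mod_cast hnN.le
      · intro p hp hpn
        by_contra hcon
        rw [not_lt] at hcon
        exact (hg p hp hcon).1 (Int.natCast_dvd_natCast.2 hpn)
    · refine few_of_rough ((N : ℝ) ^ (1 / (r : ℝ))) (by linarith) (N - n) r (by omega) ?_ ?_
      · rw [hpow]
        exact_mod_cast Nat.sub_le _ _
      · intro p hp hpn
        by_contra hcon
        rw [not_lt] at hcon
        refine (hg p hp hcon).2 ?_
        have h5 := Int.natCast_dvd_natCast.2 hpn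
        rw [Nat.cast_sub hnN.le] at h5
        exact h5
  · intro n hp1 hp2 hb1 hb2 p hp hpr
    constructor
    · intro hd
      rw [(Nat.prime_dvd_prime_iff_eq hp hp1).1 (Int.natCast_dvd_natCast.1 hd)] at hpr
      linarith
    · intro hd
      have hlt : n < N := by
        by_contra hcon
        rw [not_lt] at hcon
        rw [Nat.sub_eq_zero_of_le hcon] at hp2
        exact Nat.not_prime_zero hp2
      have h4 : p ∣ N - n := by
        apply Int.natCast_dvd_natCast.1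
        rw [Nat.cast_sub hlt.le]
        exact hd
      rw [(Nat.prime_dvd_prime_iff_eq hp hp2).1 h4] at hpr
      linarith
  · have hW0 : 0 < W N r := by
      rw [W_eq]
      refine div_pos ?_ (Pool.Agent.Y879.PR.Vz_pos _)
      unfold V
      apply Finset.prod_pos
      intro p hp
      have hpp := (Finset.mem_filter.1 hp).2
      have hlt := adm_Qn _ (adm_Q2 (-1) (N : ℤ) he (by exact_mod_cast hev)) 1 p hpp
      rw [nu_eq N p hpp] at hlt
      have h5 : (nu N p : ℝ) < p := by exact_mod_cast hlt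
      have h6 : (0 : ℝ) < p := by exact_mod_cast hpp.pos
      rw [sub_pos, div_lt_one h6]
      exact h5
    have hs1 : (Nat.sqrt N : ℝ) ≤ Real.sqrt N := Real.nat_sqrt_le_real_sqrt
    have hs2 : Real.sqrt N < Nat.sqrt N + 1 := by
      have := Real.real_sqrt_lt_nat_sqrt_succ (a := N)
      exact_mod_cast this
    have hX1 : (Nat.sqrt (16 * N - 1) : ℝ) ≤ 4 * Real.sqrt N := by
      have h5 : Nat.sqrt (16 * N - 1) ^ 2 ≤ 16 * N := (Nat.sqrt_le' _).trans (by omega)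
      have h6 : ((Nat.sqrt (16 * N - 1) : ℝ)) ^ 2 ≤ 16 * N := by exact_mod_cast h5
      have h7 : (4 * Real.sqrt N) ^ 2 = 16 * N := by
        rw [mul_pow, Real.sq_sqrt hMpos.le]
        norm_num
      refine (sq_le_sq₀ (by positivity) (by positivity)).1 ?_
      rw [h7]
      exact h6
    have hX2 : 4 * Real.sqrt N ≤ Nat.sqrt (16 * N - 1) + 1 := by
      have h5 : 16 * N ≤ (Nat.sqrt (16 * N - 1) + 1) ^ 2 := by
        have := Nat.lt_succ_sqrt' (16 * N - 1)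
        rw [Nat.succ_eq_add_one] at this
        omega
      have h6 : (16 : ℝ) * N ≤ ((Nat.sqrt (16 * N - 1) : ℝ) + 1) ^ 2 := by exact_mod_cast h5
      have h7 : (4 * Real.sqrt N) ^ 2 = 16 * N := by
        rw [mul_pow, Real.sq_sqrt hMpos.le]
        norm_num
      refine (sq_le_sq₀ (by positivity) (by positivity)).1 ?_
      rw [h7]
      exact h6
    have hR10 : 10 ≤ Real.sqrt N := by
      refine Real.le_sqrt_of_sq_le ?_
      linarith
    have hRε : 8 / ε ≤ Real.sqrt N := Real.le_sqrt_of_sq_le hNε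
    have h0 : Nat.sqrt N ≤ Nat.sqrt (16 * N - 1) := Nat.sqrt_le_sqrt (by omega)
    have hYr : ((Nat.sqrt (16 * N - 1) - Nat.sqrt N : ℕ) : ℝ) =
        (Nat.sqrt (16 * N - 1) : ℝ) - Nat.sqrt N := Nat.cast_sub h0
    have h5 := h2 hev (Nat.sqrt (16 * N - 1)) (Nat.sqrt N) (Nat.sqrt (16 * N - 1) - Nat.sqrt N)
      (by
        rw [← Real.sqrt_eq_rpow]
        linarith)
      (by linarith)
      (by
        rw [hYr]
        linarith)
      (by omega)
    rw [← win_eq N (by omega)] at h5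
    refine ⟨hW0, ?_, ?_⟩
    · have hlogR : Real.log (Real.sqrt N) = Real.log N / 2 := Real.log_sqrt hMpos.le
      refine window_calc ε (Real.sqrt N) (Real.log N) (Real.log (Nat.sqrt (16 * N - 1)))
        ((Nat.sqrt (16 * N - 1) - Nat.sqrt N : ℕ) : ℝ) (W N r) _ hε hε1 hW0.le (Nat.cast_nonneg _)
        hRε h4 ?_ ?_ ?_ ?_ h5.1
      · rw [← hlogR]
        exact Real.log_le_log (by linarith) (by linarith)
      · rw [← hlogR, ← Real.log_mul (by norm_num) (by linarith)]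
        exact Real.log_le_log (by linarith) hX1
      · rw [hYr]
        linarith
      · rw [hYr]
        linarith
    · intro T hT B
      refine (h5.2 T hT B).trans ?_
      have : (0 : ℝ) ≤ (Pr N r (Win N)).card := Nat.cast_nonneg _
      nlinarith
  · intro X u Y hX hu hY huY
    exact h1 hev X u Y hX hu hY huY

end Pool.Agent.Results.MP_b454d1_nt.RiveraPrimes
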