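import Pool.Agent.Results.MP_b454d1_nt.SqrtWindowFewExceptions
import Pool.Agent.Y854.GM.Win

/-!
# A prime between `√N` and `4 √N` plus an almost prime, for all even numbers of short windows

Let `v ≥ 1` be a sequence with exponent of convergence at most `τ` (for `v_n = n ^ a` this is `1 / a`, for `v_n = b ^ n`
or `n!` it is `0`), `0 ≤ θ < 1`. Let `r = 3`, `1 / 2 ≤ u < 1` or `r = 2`, `6 / 11 ≤ u < 1`, and `s > 2 u - 1 / 2`. For all
`α > 0` outside a set of Hausdorff dimension at most `(s + τ) / (1 - θ)` and all but finitely many `n`, ALL even `N` with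
`|N - α v_n| ≤ v_n ^ θ` have at least `δ 𝔖(N) √N / (log N) ^ 2` primes `p` with `√N < p < 4 √N` such that `N - p` has at
most `r` prime factors, none of them small. So windows of length `v_n ^ θ` with `θ < 1 / 2 - τ` are admissible for
`r = 3`, and with `θ < 9 / 22 - τ` for `r = 2`.
-/

set_option autoImplicit false

open Finset

namespace Pool.Agent.Results.MP_b454d1_nt.RiveraWindows

/-- the exponent of convergence of the sequence `v` is at most `τ` -/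
def ExpLe (v : ℕ → ℝ) (τ : ℝ) : Prop := ∀ t : ℝ, τ < t → Summable (fun n : ℕ => (v n) ^ (-t))

/-- the variable part of the singular series of the Goldbach problem -/
noncomputable def sing (N : ℕ) : ℝ :=
  ∏ p ∈ N.primeFactors.erase 2, (((p : ℝ) - 1) / ((p : ℝ) - 2))

open Classical in
/-- The number of the primes `p < N` with `√N < p < 4 √N` such that `N - p` has at most `r` prime
factors (counted with multiplicity), all of them at least `w`. -/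
noncomputable def inSqrt (r : ℕ) (w : ℝ) (N : ℕ) : ℕ :=
  ((range N).filter (fun p : ℕ => p.Prime ∧ √(N : ℝ) < p ∧ (p : ℝ) < 4 * √(N : ℝ) ∧
    (N - p).primeFactorsList.length ≤ r ∧
    ∀ q : ℕ, q.Prime → q ∣ (N - p) → w ≤ q)).card

/-- the exceptional even numbers -/
def Exc (r : ℕ) (ζ δ : ℝ) : Set ℕ :=
  {N : ℕ | Even N ∧ (inSqrt r ((N : ℝ) ^ ζ / 2) N : ℝ) < δ * sing N * (√(N : ℝ) / Real.log N ^ 2)}

open Classical in
lemma count (r : ℕ) (u ζ s : ℝ)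
    (hpar : (r = 3 ∧ 1 / 2 ≤ u ∧ ζ = 2 / 5 * u) ∨ (r = 2 ∧ 6 / 11 ≤ u ∧ ζ = u / 4))
    (hu : u < 1) (hs : 2 * u - 1 / 2 < s) :
    ∃ δ : ℝ, 0 < δ ∧ ∀ ε : ℝ, 0 < ε → ∃ C : ℝ, ∀ X : ℕ, 1 ≤ X →
      (((Ioc 0 X).filter (fun t => t ∈ Exc r ζ δ)).card : ℝ) ≤ C * (X : ℝ) ^ (s + ε) := by
  obtain ⟨δ, C, hδ, hC, h⟩ := SqrtWindowFewExceptions.result r u ζ (s - (2 * u - 1 / 2)) hpar hu (by linarith)
  refine ⟨δ, hδ, fun ε hε => ⟨C, fun X hX => ?_⟩⟩
  have h1 := h X hX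
  have hX1 : (1 : ℝ) ≤ X := by exact_mod_cast hX
  have hsub : (Ioc 0 X).filter (fun t => t ∈ Exc r ζ δ) ⊆ (Icc 1 X).filter (fun N : ℕ => Even N ∧
        (SqrtWindowFewExceptions.inSqrt r ((N : ℝ) ^ ζ / 2) N : ℝ) <
          δ * SqrtWindowFewExceptions.sing N * (√(N : ℝ) / Real.log N ^ 2)) := by
    intro t ht
    rw [mem_filter, mem_Ioc] at ht
    rw [mem_filter, mem_Icc]
    exact ⟨⟨ht.1.1, ht.1.2⟩, ht.2⟩
  calc (((Ioc 0 X).filter (fun t => t ∈ Exc r ζ δ)).card : ℝ)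
      ≤ (((Icc 1 X).filter (fun N : ℕ => Even N ∧
        (SqrtWindowFewExceptions.inSqrt r ((N : ℝ) ^ ζ / 2) N : ℝ) <
          δ * SqrtWindowFewExceptions.sing N * (√(N : ℝ) / Real.log N ^ 2))).card : ℝ) := by
        exact_mod_cast Finset.card_le_card hsub
    _ ≤ C * (X : ℝ) ^ (2 * u - 1 / 2 + (s - (2 * u - 1 / 2))) := by
        convert h1 using 2
    _ ≤ C * (X : ℝ) ^ (s + ε) := by
        apply mul_le_mul_of_nonneg_left _ hC.le
        apply Real.rpow_le_rpow_of_exponent_le hX1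
        linarith

/-- **Theorem.** Let `r = 3`, `1 / 2 ≤ u < 1`, `ζ = 2 u / 5`, or `r = 2`, `6 / 11 ≤ u < 1`, `ζ = u / 4`, and
`s > 2 u - 1 / 2`. There is `δ > 0` such that for all sequences `v ≥ 1` of exponent of convergence at most `τ ≥ 0` and
`0 ≤ θ < 1` there is a set `E` of Hausdorff dimension at most `(s + τ) / (1 - θ)` such that for each `α > 0` outside `E`
and all but finitely many `n`, ALL even `N` with `|N - α v_n| ≤ v_n ^ θ` have at least `δ 𝔖(N) √N / (log N) ^ 2` primes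
`p` with `√N < p < 4 √N` such that `N - p` has at most `r` prime factors, all of them at least `N ^ ζ / 2`. The sequences
`v_n = (n + 1) ^ a` and `v_n = b ^ n` have exponent of convergence at most `1 / a` and `0`. -/
theorem result :
    (∀ (r : ℕ) (u ζ s : ℝ),
      ((r = 3 ∧ 1 / 2 ≤ u ∧ ζ = 2 / 5 * u) ∨ (r = 2 ∧ 6 / 11 ≤ u ∧ ζ = u / 4)) → u < 1 →
      2 * u - 1 / 2 < s → ∃ δ : ℝ, 0 < δ ∧
      ∀ (v : ℕ → ℝ) (τ θ : ℝ), (∀ n, 1 ≤ v n) → 0 ≤ τ → ExpLe v τ → 0 ≤ θ → θ < 1 →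
      ∃ E : Set ℝ, dimH E ≤ ENNReal.ofReal ((s + τ) / (1 - θ)) ∧
        ∀ α : ℝ, 0 < α → α ∉ E → ∃ n₀ : ℕ, ∀ n : ℕ, n₀ ≤ n → ∀ N : ℕ, Even N → |(N : ℝ) - α * v n| ≤ (v n) ^ θ →
          δ * sing N * (√(N : ℝ) / Real.log N ^ 2) ≤ (inSqrt r ((N : ℝ) ^ ζ / 2) N : ℝ)) ∧
    (∀ a : ℝ, 0 < a → ExpLe (fun n : ℕ => ((n : ℝ) + 1) ^ a) (1 / a)) ∧
    (∀ b : ℝ, 1 < b → ExpLe (fun n : ℕ => b ^ n) 0) := by
  refine ⟨fun r u ζ s hpar hu hs => ?_, fun κ hκ => Pool.Agent.Y854.GM.expLe_pow κ hκ,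
    fun b hb => Pool.Agent.Y854.GM.expLe_geom b hb⟩
  obtain ⟨δ, hδ, hcount⟩ := count r u ζ s hpar hu hs
  refine ⟨δ, hδ, fun v τ θ hv hτ hE hθ hθ1 => ?_⟩
  have hs0 : 0 ≤ s := by
    rcases hpar with ⟨-, h, -⟩ | ⟨-, h, -⟩
    · linarith
    · linarith
  obtain ⟨E, h2, h3⟩ := Pool.Agent.Y854.GM.win_nat (Exc r ζ δ) hv hτ hE (s := s) hs0 hθ1 hcount
  refine ⟨E, h2, fun α hα hαE => ?_⟩
  obtain ⟨n₀, hn⟩ := h3 α hα hαE
  refine ⟨n₀, fun n hn1 N hN hw => ?_⟩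
  by_contra hcon
  push Not at hcon
  exact (hn n hn1 N hw).2 ⟨hN, hcon⟩

end Pool.Agent.Results.MP_b454d1_nt.RiveraWindows
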