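import Pool.Agent.Y882.GX.Pt2

/-!
# The Goldbach-Knjzek-Rivera conjecture for almost primes, few exceptions

Rivera's conjecture: every even `N > 4` is `p + q` with primes `p`, `q` and `√N < p < 4 √N`.  Here
`p` is a prime in this window and `N - p` has at most three prime factors for all but
`C X ^ (1/2 + ε)`, at most two for all but `C X ^ (13/22 + ε)` of the even `N ≤ X`, with the expected
number of such `p` up to a constant.
-/

set_option autoImplicit false

open Finset Filter

namespace Pool.Agent.Results.MP_b454d1_nt.SqrtWindowFewExceptions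

/-- the variable part of the singular series of the Goldbach problem -/
noncomputable def sing (N : ℕ) : ℝ :=
  ∏ p ∈ N.primeFactors.erase 2, (((p : ℝ) - 1) / ((p : ℝ) - 2))

open Classical in
/-- The number of the primes `p < N` with `√N < p < 4 √N` such that `N - p` has at most `r` prime
factors (counted with multiplicity), all of them at least `w`. -/
noncomputable def inSqrt (r : ℕ) (w : ℝ) (N : ℕ) : ℕ :=
  ((range N).filter (fun p : ℕ => p.Prime ∧ √(N : ℝ) < p ∧ (p : ℝ) < 4 * √(N : ℝ) ∧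
    (N - p).primeFactorsList.length ≤ r ∧
    ∀ q : ℕ, q.Prime → q ∣ (N - p) → w ≤ q)).card

open Classical in
/-- **Rivera's window, two or three prime factors, few exceptions.** Let `r = 3`, `1 / 2 ≤ τ < 1`,
`ζ = 2 τ / 5`, or `r = 2`, `6 / 11 ≤ τ < 1`, `ζ = τ / 4`.  All even `N ≤ X` with at most
`C X ^ (2 τ - 1/2 + ε)` exceptions have at least `δ sing N √N / (log N) ^ 2` primes `p` with
`√N < p < 4 √N` such that `N - p` has at most `r` prime factors, all of them at least
`N ^ ζ / 2`. -/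
theorem result (r : ℕ) (τ ζ ε : ℝ)
    (hpar : (r = 3 ∧ 1 / 2 ≤ τ ∧ ζ = 2 / 5 * τ) ∨ (r = 2 ∧ 6 / 11 ≤ τ ∧ ζ = τ / 4))
    (hτ : τ < 1) (hε : 0 < ε) :
    ∃ δ C : ℝ, 0 < δ ∧ 0 < C ∧ ∀ X : ℕ, 1 ≤ X →
      (((Icc 1 X).filter (fun N : ℕ => Even N ∧
        (inSqrt r ((N : ℝ) ^ ζ / 2) N : ℝ) <
          δ * sing N * (√(N : ℝ) / Real.log N ^ 2))).card : ℝ) ≤
      C * (X : ℝ) ^ (2 * τ - 1 / 2 + ε) :=
  Pool.Agent.Y882.GX.sqrtFew r τ ζ ε hpar hτ hε

end Pool.Agent.Results.MP_b454d1_nt.SqrtWindowFewExceptions
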